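import Pool.Agent.Helper67.NX2.DefsB
import Pool.Agent.Helper69.EK.Selberg

/-!
# NX2-B4a: Brun-Titchmarsh in residue classes, uniform in the modulus
-/

set_option autoImplicit false

open Finset
open scoped BigOperators ComplexConjugate

namespace Pool.Agent.Helper45.NX2.Bt

/-- the number of elements of a residue class in an interval -/
theorem card_class (y l q r : ℕ) (hq : 0 < q) :
    |((((Finset.Ico y (y + l)).filter fun n => n ≡ r [MOD q]).card : ℕ) : ℝ) - (l : ℝ) / q| ≤ 1 := by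
  have hq' : (0 : ℚ) < q := by exact_mod_cast hq
  have h1 := Nat.Ico_filter_modEq_card y (y + l) hq r
  have hle : ⌈((y : ℚ) - r) / (q : ℚ)⌉ ≤ ⌈(((y + l : ℕ) : ℚ) - r) / (q : ℚ)⌉ := by
    apply Int.ceil_mono
    apply div_le_div_of_nonneg_right _ hq'.le
    push_cast
    have : (0 : ℚ) ≤ l := Nat.cast_nonneg _
    linarith
  rw [max_eq_left (sub_nonneg.2 hle)] at h1
  set N := ((Finset.Ico y (y + l)).filter fun n => n ≡ r [MOD q]).card with hN
  have h2 : (N : ℚ) = (⌈(((y + l : ℕ) : ℚ) - r) / (q : ℚ)⌉ : ℚ) - (⌈((y : ℚ) - r) / (q : ℚ)⌉ : ℚ) := by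
    exact_mod_cast h1
  have a1 := Int.le_ceil ((((y + l : ℕ) : ℚ) - r) / (q : ℚ))
  have a2 := Int.ceil_lt_add_one ((((y + l : ℕ) : ℚ) - r) / (q : ℚ))
  have a3 := Int.le_ceil (((y : ℚ) - r) / (q : ℚ))
  have a4 := Int.ceil_lt_add_one (((y : ℚ) - r) / (q : ℚ))
  have a5 : (((y + l : ℕ) : ℚ) - r) / (q : ℚ) = ((y : ℚ) - r) / q + (l : ℚ) / q := by
    push_cast; rw [← add_div]; congr 1; ring
  have h3 : |(N : ℚ) - (l : ℚ) / q| ≤ 1 := by
    rw [abs_le]
    rw [a5] at a1 a2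
    constructor
    · rw [h2, a5]; linarith
    · rw [h2, a5]; linarith
  have h4 : ((|(N : ℚ) - (l : ℚ) / q| : ℚ) : ℝ) ≤ ((1 : ℚ) : ℝ) := Rat.cast_le.2 h3
  push_cast at h4
  exact h4

theorem card_class_dvd (y l M c d : ℕ) (hM : 0 < M) (hd : 0 < d) (hcop : Nat.Coprime M d) :
    |((((Finset.Ico y (y + l)).filter fun n => n ≡ c [MOD M] ∧ d ∣ n).card : ℕ) : ℝ) -
      (l : ℝ) / M * (1 / d)| ≤ 1 := by
  obtain ⟨r, hr1, hr2⟩ := Nat.chineseRemainder hcop c 0
  have h0 : ((Finset.Ico y (y + l)).filter fun n => n ≡ c [MOD M] ∧ d ∣ n) =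
      (Finset.Ico y (y + l)).filter fun n => n ≡ r [MOD (M * d)] := by
    apply Finset.filter_congr
    intro n _
    rw [← Nat.modEq_and_modEq_iff_modEq_mul hcop]
    constructor
    · rintro ⟨h1, h2⟩
      exact ⟨h1.trans hr1.symm, ((Nat.modEq_zero_iff_dvd).2 h2).trans hr2.symm⟩
    · rintro ⟨h1, h2⟩
      exact ⟨h1.trans hr1, (Nat.modEq_zero_iff_dvd).1 (h2.trans hr2)⟩
  rw [h0]
  have h1 := card_class y l (M * d) r (Nat.mul_pos hM hd)
  have h2 : (l : ℝ) / M * (1 / d) = (l : ℝ) / ((M * d : ℕ) : ℝ) := by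
    push_cast
    field_simp
  rw [h2]
  exact h1

theorem sieve_class (a N M c R : ℕ) (hM : 1 ≤ M) (hR : 2 ≤ R) :
    (((Ico a (a + N)).filter
      (fun p => p.Prime ∧ Nat.Coprime p M ∧ p ≡ c [MOD M])).card : ℝ) ≤
      R + (N : ℝ) / (M.totient * Real.log R) + (R : ℝ) ^ 4 := by
  classical
  obtain ⟨lam, hl1, hlc, hlb, hq⟩ := Pool.Agent.Helper69.EK.selberg_weights (D := M) hM hR
  set S := (Ico a (a + N)).filter (fun n => n ≡ c [MOD M]) with hS
  have hM0 : (0 : ℝ) < M := by exact_mod_cast hM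
  -- small primes
  have h1 : (((Ico a (a + N)).filter
      (fun p => p.Prime ∧ Nat.Coprime p M ∧ p ≡ c [MOD M])).card : ℝ) ≤
      R + ∑ n ∈ S, (∑ d ∈ (Icc 1 R).filter (fun d => d ∣ n), lam d) ^ 2 := by
    set T := (Ico a (a + N)).filter
      (fun p => p.Prime ∧ Nat.Coprime p M ∧ p ≡ c [MOD M]) with hT
    have h2 : T.card = (T.filter (fun p => p ≤ R)).card + (T.filter (fun p => ¬ p ≤ R)).card :=
      (Finset.card_filter_add_card_filter_not (fun p => p ≤ R)).symm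
    have h3 : (T.filter (fun p => p ≤ R)).card ≤ R := by
      have h4 : T.filter (fun p => p ≤ R) ⊆ Icc 1 R := by
        intro p hp
        rw [Finset.mem_filter, hT, Finset.mem_filter] at hp
        rw [Finset.mem_Icc]
        exact ⟨hp.1.2.1.one_le, hp.2⟩
      have h5 := Finset.card_le_card h4
      rwa [Nat.card_Icc, Nat.add_sub_cancel] at h5
    have h6 : ((T.filter (fun p => ¬ p ≤ R)).card : ℝ) ≤
        ∑ n ∈ S, (∑ d ∈ (Icc 1 R).filter (fun d => d ∣ n), lam d) ^ 2 := by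
      have hsub : T.filter (fun p => ¬ p ≤ R) ⊆ S := by
        intro p hp
        rw [Finset.mem_filter, hT, Finset.mem_filter] at hp
        rw [hS, Finset.mem_filter]
        exact ⟨hp.1.1, hp.1.2.2.2⟩
      rw [Finset.card_eq_sum_ones, Nat.cast_sum]
      refine le_trans (Finset.sum_le_sum ?_) (Finset.sum_le_sum_of_subset_of_nonneg hsub
        (fun _ _ _ => sq_nonneg _))
      intro p hp
      rw [Finset.mem_filter, hT, Finset.mem_filter] at hp
      have h7 : ∑ d ∈ (Icc 1 R).filter (fun d => d ∣ p), lam d = 1 := by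
        rw [Finset.sum_eq_single 1]
        · exact hl1
        · intro d hd hd1
          rw [Finset.mem_filter, Finset.mem_Icc] at hd
          rcases (Nat.dvd_prime hp.1.2.1).1 hd.2 with h | h
          · exact absurd h hd1
          · exact absurd (h ▸ hd.1.2) hp.2
        · intro h
          refine absurd ?_ h
          rw [Finset.mem_filter, Finset.mem_Icc]
          exact ⟨⟨le_refl _, by omega⟩, one_dvd _⟩
      rw [h7]
      norm_num
    rw [h2]
    push_cast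
    have h3' : ((T.filter (fun p => p ≤ R)).card : ℝ) ≤ R := by exact_mod_cast h3
    linarith
  -- expansion
  have h2 : ∑ n ∈ S, (∑ d ∈ (Icc 1 R).filter (fun d => d ∣ n), lam d) ^ 2 =
      ∑ d₁ ∈ Icc 1 R, ∑ d₂ ∈ Icc 1 R, lam d₁ * lam d₂ *
        (((Finset.Ico a (a + N)).filter fun n => n ≡ c [MOD M] ∧ Nat.lcm d₁ d₂ ∣ n).card : ℝ) := by
    have h3 : ∀ n ∈ S, (∑ d ∈ (Icc 1 R).filter (fun d => d ∣ n), lam d) ^ 2 =
        ∑ d₁ ∈ Icc 1 R, ∑ d₂ ∈ Icc 1 R, lam d₁ * lam d₂ *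
          (if Nat.lcm d₁ d₂ ∣ n then 1 else 0) := by
      intro n hn
      rw [Finset.sum_filter, sq, Finset.sum_mul_sum]
      apply Finset.sum_congr rfl
      intro d₁ _
      apply Finset.sum_congr rfl
      intro d₂ _
      have h4 : Nat.lcm d₁ d₂ ∣ n ↔ d₁ ∣ n ∧ d₂ ∣ n := Nat.lcm_dvd_iff
      by_cases c1 : d₁ ∣ n
      · by_cases c2 : d₂ ∣ n
        · rw [if_pos c1, if_pos c2, if_pos (h4.2 ⟨c1, c2⟩), mul_one]
        · rw [if_neg c2, if_neg (fun h => c2 (h4.1 h).2), mul_zero, mul_zero]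
      · rw [if_neg c1, if_neg (fun h => c1 (h4.1 h).1), mul_zero, zero_mul]
    rw [Finset.sum_congr rfl h3, Finset.sum_comm]
    apply Finset.sum_congr rfl
    intro d₁ _
    rw [Finset.sum_comm]
    apply Finset.sum_congr rfl
    intro d₂ _
    rw [← Finset.mul_sum]
    congr 1
    rw [← Finset.sum_filter, Finset.card_eq_sum_ones, Nat.cast_sum, hS, Finset.filter_filter]
    simp only [Nat.cast_one]
  have h5 : ∀ d₁ ∈ Icc 1 R, ∀ d₂ ∈ Icc 1 R, lam d₁ * lam d₂ *
        (((Finset.Ico a (a + N)).filter fun n => n ≡ c [MOD M] ∧ Nat.lcm d₁ d₂ ∣ n).card : ℝ) ≤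
      (N : ℝ) / M * (lam d₁ * lam d₂ / (Nat.lcm d₁ d₂ : ℝ)) + (R : ℝ) ^ 2 := by
    intro d₁ h₁ d₂ h₂
    rw [Finset.mem_Icc] at h₁ h₂
    by_cases hz : lam d₁ * lam d₂ = 0
    · rw [hz]
      simp only [zero_mul, zero_div, mul_zero, zero_add]
      positivity
    have hz1 : lam d₁ ≠ 0 := left_ne_zero_of_mul hz
    have hz2 : lam d₂ ≠ 0 := right_ne_zero_of_mul hz
    have hl0 : 0 < Nat.lcm d₁ d₂ := Nat.lcm_pos h₁.1 h₂.1
    have hcop : Nat.Coprime M (Nat.lcm d₁ d₂) := by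
      have e1 := (hlc d₁ hz1).2.2
      have e2 := (hlc d₂ hz2).2.2
      have e3 : Nat.Coprime (d₁ * d₂) M := Nat.Coprime.mul_left e1 e2
      exact (Nat.Coprime.coprime_dvd_left (Nat.lcm_dvd_mul d₁ d₂) e3).symm
    have h6 := card_class_dvd a N M c (Nat.lcm d₁ d₂) hM hl0 hcop
    set X := (((Finset.Ico a (a + N)).filter
      fun n => n ≡ c [MOD M] ∧ Nat.lcm d₁ d₂ ∣ n).card : ℝ) with hX
    have h7 : |lam d₁ * lam d₂| ≤ (R : ℝ) ^ 2 := by
      rw [abs_mul, sq]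
      exact mul_le_mul (hlb d₁) (hlb d₂) (abs_nonneg _) (Nat.cast_nonneg _)
    have h8 : lam d₁ * lam d₂ * (X - (N : ℝ) / M * (1 / (Nat.lcm d₁ d₂ : ℝ))) ≤ (R : ℝ) ^ 2 := by
      refine (le_abs_self _).trans ?_
      rw [abs_mul]
      calc _ ≤ (R : ℝ) ^ 2 * 1 := mul_le_mul h7 h6 (abs_nonneg _) (by positivity)
        _ = (R : ℝ) ^ 2 := mul_one _
    have h9 : (N : ℝ) / M * (lam d₁ * lam d₂ / (Nat.lcm d₁ d₂ : ℝ)) =
        lam d₁ * lam d₂ * ((N : ℝ) / M * (1 / (Nat.lcm d₁ d₂ : ℝ))) := by ring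
    rw [h9]
    nlinarith
  have h6 : ∑ n ∈ S, (∑ d ∈ (Icc 1 R).filter (fun d => d ∣ n), lam d) ^ 2 ≤
      (N : ℝ) / (M.totient * Real.log R) + (R : ℝ) ^ 4 := by
    rw [h2]
    refine (Finset.sum_le_sum fun d₁ h₁ => Finset.sum_le_sum fun d₂ h₂ => h5 d₁ h₁ d₂ h₂).trans ?_
    simp only [Finset.sum_add_distrib, ← Finset.mul_sum, Finset.sum_const, Nat.card_Icc,
      Nat.add_sub_cancel, nsmul_eq_mul]
    have hphi : (0 : ℝ) < M.totient := by exact_mod_cast Nat.totient_pos.2 hM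
    have hlog : 0 < Real.log R := Real.log_pos (by exact_mod_cast hR)
    have h7 : (N : ℝ) / M * ∑ d₁ ∈ Icc 1 R, ∑ d₂ ∈ Icc 1 R,
        lam d₁ * lam d₂ / (Nat.lcm d₁ d₂ : ℝ) ≤
        (N : ℝ) / M * ((M : ℝ) / (M.totient * Real.log R)) :=
      mul_le_mul_of_nonneg_left hq (by positivity)
    have h8 : (N : ℝ) / M * ((M : ℝ) / (M.totient * Real.log R)) =
        (N : ℝ) / (M.totient * Real.log R) := by
      field_simp
    rw [h8] at h7
    have h9 : (R : ℝ) * (R * (R : ℝ) ^ 2) = (R : ℝ) ^ 4 := by ring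
    rw [h9]
    linarith
  linarith

theorem exists_root (k N : ℕ) : ∃ R : ℕ, R ^ (k + 1) ≤ N ∧ N < (R + 1) ^ (k + 1) := by
  induction N with
  | zero => exact ⟨0, by simp, by simp⟩
  | succ N ih =>
    obtain ⟨R, h1, h2⟩ := ih
    by_cases h : N + 1 < (R + 1) ^ (k + 1)
    · exact ⟨R, by omega, h⟩
    · refine ⟨R + 1, by omega, ?_⟩
      have h3 : (R + 1) ^ (k + 1) < (R + 1 + 1) ^ (k + 1) :=
        Nat.pow_lt_pow_left (by omega) (by omega)
      omega

theorem log_root {R N k : ℕ} (hN : 1 ≤ N) (hR : 2 ≤ R) (h : N < (R + 1) ^ k) :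
    Real.log N ≤ 2 * k * Real.log R := by
  have hN0 : (0 : ℝ) < N := by exact_mod_cast hN
  have hR0 : (0 : ℝ) < R := by positivity
  have h1 : (N : ℝ) ≤ ((R : ℝ) + 1) ^ k := by exact_mod_cast h.le
  have h2 := Real.log_le_log hN0 h1
  rw [Real.log_pow] at h2
  have h3 : ((R : ℝ) + 1) ≤ (R : ℝ) ^ 2 := by
    have : (2 : ℝ) ≤ R := by exact_mod_cast hR
    nlinarith
  have h4 := Real.log_le_log (by positivity) h3
  rw [Real.log_pow] at h4
  have h5 : (k : ℝ) * Real.log ((R : ℝ) + 1) ≤ k * ((2 : ℕ) * Real.log R) :=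
    mul_le_mul_of_nonneg_left h4 (Nat.cast_nonneg k)
  calc Real.log N ≤ (k : ℝ) * Real.log ((R : ℝ) + 1) := h2
    _ ≤ k * ((2 : ℕ) * Real.log R) := h5
    _ = 2 * k * Real.log R := by push_cast; ring

theorem root_mul {R M N : ℕ} {k j : ℕ} (hkj : 2 * j ≤ k) (hR : 1 ≤ R) (h : R ^ k ≤ N)
    (hM : M ^ 2 ≤ N) : R ^ j * M ≤ N := by
  by_contra hh
  push Not at hh
  have h3 : N ^ 2 < (R ^ j * M) ^ 2 := Nat.pow_lt_pow_left hh (by norm_num)
  have h4 : (R ^ j * M) ^ 2 ≤ N * N := by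
    calc (R ^ j * M) ^ 2 = R ^ (2 * j) * M ^ 2 := by rw [mul_pow, ← pow_mul, mul_comm j 2]
      _ ≤ R ^ k * M ^ 2 := Nat.mul_le_mul_right _ (Nat.pow_le_pow_right hR hkj)
      _ ≤ N * N := Nat.mul_le_mul h hM
  rw [sq N] at h3
  exact absurd h3 (not_lt.2 h4)

theorem exists_R {M N : ℕ} (k : ℕ) (hN : 2 ^ (k + 1) ≤ N) (hM : M ^ 2 ≤ N) (j : ℕ)
    (hj : 2 * j ≤ k + 1) :
    ∃ R : ℕ, 2 ≤ R ∧ Real.log N ≤ 2 * ((k + 1 : ℕ) : ℝ) * Real.log R ∧ R ^ j * M ≤ N := by
  obtain ⟨R, h1, h2⟩ := exists_root k N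
  have hR2 : 2 ≤ R := by
    by_contra h
    push Not at h
    have h3 : (R + 1) ^ (k + 1) ≤ 2 ^ (k + 1) := Nat.pow_le_pow_left (by omega) _
    exact absurd (h2.trans_le h3) (not_lt.2 hN)
  have hN1 : 1 ≤ N := le_trans Nat.one_le_two_pow hN
  exact ⟨R, hR2, log_root hN1 hR2 h2, root_mul hj (by omega) h1 hM⟩

end Pool.Agent.Helper45.NX2.Bt

namespace Pool.Agent.Helper67.NX2

open Pool.Agent.Helper57.NX

theorem bt_class : ∃ C : ℝ, 0 < C ∧ ∀ a N M c : ℕ, 2 ≤ N → 1 ≤ M → M ^ 2 ≤ N →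
    (((Ico a (a + N)).filter
      (fun p => p.Prime ∧ Nat.Coprime p M ∧ p ≡ c [MOD M])).card : ℝ) ≤
        C * N / (M.totient * Real.log N) := by
  classical
  refine ⟨2 ^ 14, by norm_num, ?_⟩
  intro a N M c hN hM hMN
  have hphi : (0 : ℝ) < M.totient := by exact_mod_cast Nat.totient_pos.2 hM
  have hlogN : 0 < Real.log N := Real.log_pos (by exact_mod_cast hN)
  have hphiM : (M.totient : ℝ) ≤ M := by exact_mod_cast Nat.totient_le M
  have hN0 : (0 : ℝ) < N := by positivity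
  rw [le_div_iff₀ (by positivity)]
  set X := (((Ico a (a + N)).filter
      (fun p => p.Prime ∧ Nat.Coprime p M ∧ p ≡ c [MOD M])).card : ℝ) with hX
  have hX0 : 0 ≤ X := Nat.cast_nonneg _
  by_cases hsmall : N < 2 ^ 20
  · have h1 : X ≤ N := by
      rw [hX]
      have := Finset.card_filter_le (Ico a (a + N))
        (fun p => p.Prime ∧ Nat.Coprime p M ∧ p ≡ c [MOD M])
      rw [Nat.card_Ico, Nat.add_sub_cancel_left] at this
      exact_mod_cast this
    have h2 : M < 2 ^ 10 := by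
      by_contra h
      push Not at h
      have : (2 ^ 10) ^ 2 ≤ M ^ 2 := Nat.pow_le_pow_left h 2
      norm_num at this hsmall
      omega
    have h3 : Real.log N ≤ 16 := by
      have h4 : Real.log N ≤ Real.log ((2 : ℝ) ^ 20) :=
        Real.log_le_log hN0 (by exact_mod_cast hsmall.le)
      rw [Real.log_pow] at h4
      have := Real.log_two_lt_d9
      push_cast at h4
      linarith
    have h2' : (M : ℝ) ≤ 2 ^ 10 := by exact_mod_cast h2.le
    calc X * (M.totient * Real.log N) ≤ N * (2 ^ 10 * 16) := by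
          apply mul_le_mul h1 _ (by positivity) hN0.le
          exact mul_le_mul (hphiM.trans h2') h3 hlogN.le (by positivity)
      _ = 2 ^ 14 * N := by ring
  · push Not at hsmall
    obtain ⟨R, hR2, hlog0, hRM0⟩ :=
      Pool.Agent.Helper45.NX2.Bt.exists_R 19 hsmall hMN 5 (by norm_num)
    clear hsmall
    have hR0 : (0 : ℝ) < R := by positivity
    have hlogR : 0 < Real.log R := Real.log_pos (by exact_mod_cast hR2)
    have hlog : Real.log N ≤ 40 * Real.log R := by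
      push_cast at hlog0
      linarith
    have hlogR' : Real.log R ≤ R := (Real.log_le_sub_one_of_pos hR0).trans (by linarith)
    have h1 := Pool.Agent.Helper45.NX2.Bt.sieve_class a N M c R hM hR2
    rw [← hX] at h1
    have hRM : (R : ℝ) ^ 5 * M ≤ N := by
      exact_mod_cast hRM0
    have hR1 : (1 : ℝ) ≤ R := by exact_mod_cast (by omega : 1 ≤ R)
    -- main term
    have hmain : (N : ℝ) / (M.totient * Real.log R) * (M.totient * Real.log N) ≤ 40 * N := by
      have : (N : ℝ) / (M.totient * Real.log R) * (M.totient * Real.log N) =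
          N * (Real.log N / Real.log R) := by
        field_simp
      rw [this]
      have h2 : Real.log N / Real.log R ≤ 40 := by
        rw [div_le_iff₀ hlogR]; exact hlog
      nlinarith
    have herr : ((R : ℝ) + (R : ℝ) ^ 4) * (M.totient * Real.log N) ≤ 80 * N := by
      have h2 : (R : ℝ) + (R : ℝ) ^ 4 ≤ 2 * (R : ℝ) ^ 4 := by
        have : (R : ℝ) ≤ (R : ℝ) ^ 4 := le_self_pow₀ hR1 (by norm_num)
        linarith
      have h3 : (M.totient : ℝ) * Real.log N ≤ M * (40 * R) :=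
        mul_le_mul hphiM (hlog.trans (by linarith)) hlogN.le (by positivity)
      calc ((R : ℝ) + (R : ℝ) ^ 4) * (M.totient * Real.log N)
          ≤ (2 * (R : ℝ) ^ 4) * (M * (40 * R)) :=
            mul_le_mul h2 h3 (by positivity) (by positivity)
        _ = 80 * ((R : ℝ) ^ 5 * M) := by ring
        _ ≤ 80 * N := by linarith
    have hpos : (0 : ℝ) ≤ M.totient * Real.log N := by positivity
    calc X * (M.totient * Real.log N)
        ≤ (R + (N : ℝ) / (M.totient * Real.log R) + (R : ℝ) ^ 4) * (M.totient * Real.log N) :=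
          mul_le_mul_of_nonneg_right h1 hpos
      _ = (N : ℝ) / (M.totient * Real.log R) * (M.totient * Real.log N) +
          ((R : ℝ) + (R : ℝ) ^ 4) * (M.totient * Real.log N) := by ring
      _ ≤ 40 * N + 80 * N := add_le_add hmain herr
      _ ≤ 2 ^ 14 * N := by nlinarith

end Pool.Agent.Helper67.NX2
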