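import Pool.Agent.Helper67.NX2.Defs
import Pool.Agent.Helper40.NX2.IGBasic
import Pool.Agent.Helper61.NX.DsOfUs

/-!
Project NX2, module NX2-A7, core: the weighted statement from the representation of the functions
by characters and slowly varying functions.
-/

set_option autoImplicit false

open Finset
open scoped BigOperators ComplexConjugate

namespace Pool.Agent.Helper67.NX2

open Pool.Agent.Helper57.NX

noncomputable section

/-- the differences of the sequences are multiples of the steps -/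
theorem stp_dvd45 {m N : ℕ} {S : Sys (m + 1)} {c : Fin (m + 1) → ℝ} {x : ℝ} {lam : ℕ}
    [NeZero N] (hG : IG S c N x lam) (hD : 0 < S.D) (q j k : ℕ) (i : Fin (m + 1)) :
    ∃ t : ℤ, S.a c i (k + q * j) - S.a c i k = stp S.Q q (c i) * t := by
  by_cases h : IsN (c i)
  · obtain ⟨d, hd⟩ := h
    obtain ⟨r, hr⟩ := hG.rho
    rw [a_nat hG hD hr i d hd, a_nat hG hD hr i d hd, stp_nat S.Q q ⟨d, hd⟩]
    have h1 : ((q : ℤ)) ∣ ((lam * (k + q * j) + r : ℕ) : ℤ) ^ d - ((lam * k + r : ℕ) : ℤ) ^ d := by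
      refine dvd_trans ?_ (sub_dvd_pow_sub_pow _ _ d)
      exact ⟨lam * j, by push_cast; ring⟩
    obtain ⟨t, ht⟩ := h1
    refine ⟨t, ?_⟩
    rw [← mul_sub, ht]
    push_cast
    ring
  · rw [stp_not S.Q q h]
    exact ⟨S.a c i (k + q * j) - S.a c i k, by push_cast; ring⟩

/-- the character with an integer frequency -/
theorem ch_eq45 {N : ℕ} [NeZero N] (b : ℤ) (x : ZMod N) :
    e ((b : ℝ) / N * x.val) = ch (b : ZMod N) x := by
  have h : (b : ZMod N) * x = ((b * x.val : ℤ) : ZMod N) := by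
    push_cast
    rw [ZMod.natCast_zmod_val]
  rw [ch, h, ZMod.stdAddChar_coe, e]
  congr 1
  push_cast
  ring

theorem ch_int45 {N : ℕ} [NeZero N] (b : ℤ) (a : ℤ) :
    ch (b : ZMod N) (a : ZMod N) = e ((b : ℝ) / N * a) := by
  have h : (b : ZMod N) * (a : ZMod N) = ((b * a : ℤ) : ZMod N) := by push_cast; ring
  rw [ch, h, ZMod.stdAddChar_coe, e]
  congr 1
  push_cast
  ring

theorem ds_core45 (m : ℕ) (c : Fin (m + 1) → ℝ) (hc : Ex c) (s : ℝ)
    (hCR : ∀ ε : ℝ, 0 < ε →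
      ∃ x0 : ℝ, 0 < x0 ∧ ∃ C : ℕ, ∃ σ : ℝ, 0 < σ ∧ ∃ D0 : ℝ,
      ∀ (S : Sys (m + 1)) (N : ℕ) [NeZero N] (lam : ℕ), D0 ≤ S.D → IG S c N x0 lam →
      ∀ δ : ℝ, S.D ^ (-σ) ≤ δ → δ ≤ 1 / 2 → (lam : ℝ) ≤ δ⁻¹ →
      ∀ X : ℝ, (S.Q : ℝ) ≤ X → S.Q * S.D ^ (s - σ) ≤ X → X ≤ S.Q * S.D ^ s →
      ∀ (h : ℕ → ℂ) (f0 : ZMod N → ℂ) (f : Fin (m + 1) → ZMod N → ℂ),
      (∀ k, ‖h k‖ ≤ 1) → Adm δ⁻¹ S.Q f0 → (∀ i, Adm δ⁻¹ S.Q (f i)) →
      Adm δ⁻¹ X (f (Fin.last m)) →
      δ ≤ ‖form S c h f0 f‖ →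
      ∃ q : ℕ, 1 ≤ q ∧ (q : ℝ) ≤ δ⁻¹ ^ C ∧
      ∃ (b : Fin (m + 1) → ℤ) (cc : Fin (m + 1) → ZMod N → ℂ),
        (∀ i, |(b i : ℝ) / N| ≤ δ⁻¹ ^ C / S.Q ∧ (i = Fin.last m → |(b i : ℝ) / N| ≤ δ⁻¹ ^ C / X) ∧
          Adm (δ⁻¹ ^ C) S.Q (cc i) ∧
          ∀ (x : ZMod N) (t : ℤ), ‖cc i (x + ((stp S.Q q (c i) * t : ℤ) : ZMod N)) - cc i x‖ ≤
            |(t : ℝ)| * (stp S.Q q (c i) : ℝ) * S.D ^ ε / S.P i) ∧
        δ ^ C ≤ ‖form S c h f0 (fun i x => e ((b i : ℝ) / N * x.val) * cc i x)‖) :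
    ∀ ε : ℝ, 0 < ε → DsPm m c s ε := by
  intro ε0 hε0
  -- reduce to `ε ≤ 1`
  set ε := min ε0 1 with hεdef
  have hε : 0 < ε := lt_min hε0 one_pos
  have hε1 : ε ≤ 1 := min_le_right _ _
  have hεε0 : ε ≤ ε0 := min_le_left _ _
  have hc0 : ∀ i, 0 < c i := fun i => by linarith [hc.two i]
  obtain ⟨x1, hx1, C0, σ, hσ, D0, H⟩ := hCR (ε / 4) (by positivity)
  set C : ℕ := C0 + 1 with hCdef
  have hC1 : 1 ≤ C := by omega
  have hC0 : (0 : ℝ) < C := by exact_mod_cast hC1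
  set x0 : ℝ := min x1 (ε / 4) with hx0def
  have hx0 : 0 < x0 := lt_min hx1 (by positivity)
  have hx0a : x0 ≤ x1 := min_le_left _ _
  have hx0b : x0 ≤ ε / 4 := min_le_right _ _
  -- constants
  have hMc0 : 0 ≤ Mc c := Finset.sum_nonneg fun i _ => mul_nonneg (hc0 i).le (by positivity)
  set A0 : ℝ := 8 * (m + 1) * (Mc c + 2) with hA0
  have hA0pos : 0 < A0 := by positivity
  refine ⟨x0, hx0, C + 1, min σ (ε / (4 * C)), lt_min hσ (by positivity),
    max (max D0 4) ((4 * A0) ^ (4 / ε)), ?_⟩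
  intro S N _ lam hD hG δ hδσ hδ hlam X hQX hX hX' hw f0 f hh hf0 hf hfl hform
  have hDa : D0 ≤ S.D := ((le_max_left _ _).trans (le_max_left _ _)).trans hD
  have hD4 : 4 ≤ S.D := ((le_max_right _ _).trans (le_max_left _ _)).trans hD
  have hD1 : 1 ≤ S.D := by linarith
  have hDpos : 0 < S.D := by linarith
  have hδ0 : 0 < δ := (Real.rpow_pos_of_pos hDpos _).trans_le hδσ
  have hR2 : 2 ≤ δ⁻¹ := two_le_inv hδ0 hδ
  have hgood := hG.good
  have hQD : S.D ^ (2 : ℝ) ≤ (S.Q : ℝ) := hgood.Q1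
  have hQ0 : (0 : ℝ) < S.Q := (Real.rpow_pos_of_pos hDpos _).trans_le hQD
  have hσa : min σ (ε / (4 * C)) ≤ σ := min_le_left _ _
  have hσb : min σ (ε / (4 * C)) ≤ ε / (4 * C) := min_le_right _ _
  obtain ⟨q, hq1, hq, b, cc, hbc, hF'⟩ := H S N lam hDa (hG.mono hx0a hD1) δ
    ((Real.rpow_le_rpow_of_exponent_le hD1 (by linarith)).trans hδσ) hδ hlam X hQX
    (le_trans (mul_le_mul_of_nonneg_left (Real.rpow_le_rpow_of_exponent_le hD1 (by linarith))
      (Nat.cast_nonneg _)) hX) hX' hw f0 f hh hf0 hf hfl hform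
  have hCC : δ⁻¹ ^ C0 ≤ δ⁻¹ ^ C := pow_le_pow_right₀ (by linarith) (by omega)
  have hCC' : δ ^ C ≤ δ ^ C0 := pow_le_pow_of_le_one hδ0.le (by linarith) (by omega)
  have hq' : (q : ℝ) ≤ δ⁻¹ ^ C := hq.trans hCC
  -- sizes of `P`
  have hP : ∀ i, S.D ^ (2 : ℝ) ≤ S.P i := by
    intro i
    refine le_trans ?_ (hgood.P1 i)
    calc S.D ^ (2 : ℝ) = S.D ^ (2 : ℝ) * 1 := (mul_one _).symm
      _ ≤ S.Q * S.D ^ (c i - x0) := by
        refine mul_le_mul hQD (Real.one_le_rpow hD1 ?_) zero_le_one hQ0.le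
        linarith [hc.two i]
  have hP0 : ∀ i, 0 < S.P i := fun i => (Real.rpow_pos_of_pos hDpos _).trans_le (hP i)
  have h2 : δ⁻¹ ^ C0 ≤ δ⁻¹ ^ (C + 1) := pow_le_pow_right₀ (by linarith) (by omega)
  refine ⟨q, hq1, hq.trans h2, fun i => (b i : ℝ) / N, ?_, ?_, ?_⟩
  · intro i
    refine (hbc i).1.trans ?_
    gcongr
  · refine ((hbc (Fin.last m)).2.1 rfl).trans ?_
    have h3 : 0 < X := hQ0.trans_le hQX
    gcongr
  intro K hK1 hKD0
  have hKD : (K : ℝ) ≤ S.D ^ (1 - ε) :=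
    hKD0.trans (Real.rpow_le_rpow_of_exponent_le hD1 (by linarith))
  -- powers of `δ` and `D`
  have hDε : S.D ^ (-(ε / 4)) ≤ δ ^ C := by
    calc S.D ^ (-(ε / 4)) = (S.D ^ (-(ε / (4 * C)))) ^ C := by
          rw [← Real.rpow_natCast, ← Real.rpow_mul hDpos.le]
          congr 1
          field_simp
      _ ≤ δ ^ C := by
          refine pow_le_pow_left₀ (Real.rpow_nonneg hDpos.le _) (le_trans ?_ hδσ) C
          exact Real.rpow_le_rpow_of_exponent_le hD1 (by linarith)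
  have hDinv : δ⁻¹ ^ C ≤ S.D ^ (ε / 4) := by
    rw [inv_pow, inv_le_comm₀ (by positivity) (Real.rpow_pos_of_pos hDpos _), ← Real.rpow_neg hDpos.le]
    exact hDε
  have hqK : (q : ℝ) * K ≤ S.D ^ (-(3 * ε / 4)) * S.D := by
    calc (q : ℝ) * K ≤ S.D ^ (ε / 4) * S.D ^ (1 - ε) := by
          gcongr
          exact hq'.trans hDinv
      _ = S.D ^ (-(3 * ε / 4)) * S.D := by
          rw [← Real.rpow_add hDpos, ← Real.rpow_add_one hDpos.ne']
          congr 1
          ring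
  have hqKD : (q : ℝ) * K ≤ S.D := by
    refine hqK.trans (mul_le_of_le_one_left hDpos.le ?_)
    exact Real.rpow_le_one_of_one_le_of_nonpos hD1 (by linarith)
  -- decomposition of the form
  set E : ℕ → ℂ := fun k => hw k * ∏ i, ch (b i : ZMod N) (S.a c i k : ZMod N) with hE
  set g0 : ZMod N → ℂ := fun x => f0 x * ∏ i, ch (b i : ZMod N) x with hg0
  set V : ℕ → ℂ := fun k => 𝔼 x : ZMod N, g0 x * ∏ i, cc i (x + (S.a c i k : ZMod N)) with hV
  have hccb : ∀ i x, ‖cc i x‖ ≤ 1 := fun i x => (hbc i).2.2.1.bdd x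
  have hg0b : ∀ x, ‖g0 x‖ ≤ 1 := by
    intro x
    rw [hg0, norm_mul, norm_prod]
    refine mul_le_one₀ (hf0.bdd x) (Finset.prod_nonneg fun i _ => norm_nonneg _) ?_
    exact Finset.prod_le_one (fun i _ => norm_nonneg _) fun i _ => (norm_ch _ _).le
  have hEb : ∀ k, ‖E k‖ ≤ 1 := by
    intro k
    rw [hE, norm_mul, norm_prod]
    refine mul_le_one₀ (hh k) (Finset.prod_nonneg fun i _ => norm_nonneg _) ?_
    exact Finset.prod_le_one (fun i _ => norm_nonneg _) fun i _ => (norm_ch _ _).le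
  have hVb : ∀ k, ‖V k‖ ≤ 1 := by
    intro k
    rw [hV]
    refine (norm_expect_le' _ _).trans ?_
    calc 𝔼 x : ZMod N, ‖g0 x * ∏ i, cc i (x + (S.a c i k : ZMod N))‖ ≤ 𝔼 _x : ZMod N, (1 : ℝ) := by
          refine Finset.expect_le_expect fun x _ => ?_
          rw [norm_mul, norm_prod]
          refine mul_le_one₀ (hg0b x) (Finset.prod_nonneg fun i _ => norm_nonneg _) ?_
          exact Finset.prod_le_one (fun i _ => norm_nonneg _) fun i _ => hccb i _
      _ = 1 := Finset.expect_const Finset.univ_nonempty 1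
  have hdec : form S c hw f0 (fun i x => e ((b i : ℝ) / N * x.val) * cc i x) =
      𝔼 k ∈ S.I, E k * V k := by
    unfold form
    refine Finset.expect_congr rfl fun k _ => ?_
    change hw k * 𝔼 x : ZMod N, f0 x * ∏ i, (e ((b i : ℝ) / N * (x + (S.a c i k : ZMod N)).val) *
        cc i (x + (S.a c i k : ZMod N))) =
      (hw k * ∏ i, ch (b i : ZMod N) (S.a c i k : ZMod N)) *
        𝔼 x : ZMod N, (f0 x * ∏ i, ch (b i : ZMod N) x) * ∏ i, cc i (x + (S.a c i k : ZMod N))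
    rw [mul_assoc (hw k), Finset.mul_expect univ _ (∏ i, ch (b i : ZMod N) (S.a c i k : ZMod N))]
    congr 1
    refine Finset.expect_congr rfl fun x _ => ?_
    have h1 : ∏ i, (e ((b i : ℝ) / N * (x + (S.a c i k : ZMod N)).val) *
        cc i (x + (S.a c i k : ZMod N))) =
        (∏ i, ch (b i : ZMod N) x) * ((∏ i, ch (b i : ZMod N) (S.a c i k : ZMod N)) *
          ∏ i, cc i (x + (S.a c i k : ZMod N))) := by
      rw [← Finset.prod_mul_distrib, ← Finset.prod_mul_distrib]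
      refine Finset.prod_congr rfl fun i _ => ?_
      rw [ch_eq45, ch_add]
      ring
    rw [h1]
    ring
  -- asymptotics
  have hT0 : 0 < S.D ^ (1 - x0) := Real.rpow_pos_of_pos hDpos _
  have hTpos : (0 : ℝ) < S.T := hT0.trans_le hgood.T1
  have hT1 : 1 ≤ S.T := by exact_mod_cast hTpos
  have hbig : 4 * A0 ≤ S.D ^ (ε / 4) := by
    have h1 : (4 * A0) ^ (4 / ε) ≤ S.D := (le_max_right _ _).trans hD
    calc 4 * A0 = ((4 * A0) ^ (4 / ε)) ^ (ε / 4) := by
          rw [← Real.rpow_mul (by positivity)]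
          have : 4 / ε * (ε / 4) = 1 := by field_simp
          rw [this, Real.rpow_one]
      _ ≤ S.D ^ (ε / 4) := Real.rpow_le_rpow (by positivity) h1 (by positivity)
  have hsmall : 2 * A0 * S.D ^ (-(ε / 2)) ≤ δ ^ C / 2 := by
    have h1 : S.D ^ (-(ε / 2)) = S.D ^ (-(ε / 4)) * S.D ^ (-(ε / 4)) := by
      rw [← Real.rpow_add hDpos]
      congr 1
      ring
    have h2 : 4 * A0 * S.D ^ (-(ε / 4)) ≤ 1 := by
      rw [Real.rpow_neg hDpos.le, mul_inv_le_iff₀ (Real.rpow_pos_of_pos hDpos _), one_mul]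
      exact hbig
    calc 2 * A0 * S.D ^ (-(ε / 2)) = (4 * A0 * S.D ^ (-(ε / 4))) * S.D ^ (-(ε / 4)) / 2 := by
          rw [h1]; ring
      _ ≤ 1 * δ ^ C / 2 := by
          gcongr
      _ = δ ^ C / 2 := by ring
  -- first error: shifts
  set η' := S.D ^ (-(ε / 2)) with hη'
  have hη'0 : 0 < η' := Real.rpow_pos_of_pos hDpos _
  have hKT : 2 * ((q : ℝ) * K) / S.T ≤ 2 * η' := by
    rw [div_le_iff₀ hTpos]
    have h1 : S.D ^ (-(3 * ε / 4)) * S.D ≤ η' * S.D ^ (1 - x0) := by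
      rw [hη', ← Real.rpow_add hDpos, ← Real.rpow_add_one hDpos.ne']
      exact Real.rpow_le_rpow_of_exponent_le hD1 (by linarith)
    have h2 := mul_le_mul_of_nonneg_left hgood.T1 hη'0.le
    nlinarith [hqK]
  -- second error: variation of `V`
  have hVd : ∀ k ∈ S.I, ∀ j : ℕ, j < K →
      ‖V (k + q * j) - V k‖ ≤ (m + 1) * (4 * (Mc c + 1)) * η' := by
    intro k hk j hj
    have hjK : (j : ℝ) ≤ K := by exact_mod_cast hj.le
    have hqj : ((q * j : ℕ) : ℝ) ≤ q * K := by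
      push_cast
      gcongr
    have hjD : ((q * j : ℕ) : ℝ) ≤ S.D := hqj.trans hqKD
    have hterm : ∀ i, |((S.a c i (k + q * j) - S.a c i k : ℤ) : ℝ)| * S.D ^ (ε / 4) / S.P i ≤
        4 * (Mc c + 1) * η' := by
      intro i
      have h1 := a_diff hgood hc0 hD1 hk hjD (fun i => (hP0 i).le) i
      rw [div_le_iff₀ (hP0 i)]
      have h3 : ((q * j : ℕ) : ℝ) / S.D ≤ S.D ^ (-(3 * ε / 4)) := by
        rw [div_le_iff₀ hDpos]
        exact hqj.trans hqK
      have h4 : S.D ^ (-(3 * ε / 4)) * S.D ^ (ε / 4) = η' := by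
        rw [hη', ← Real.rpow_add hDpos]
        congr 1
        ring
      have h5 : S.D ^ (ε / 4) ≤ S.P i * η' := by
        calc S.D ^ (ε / 4) ≤ S.D ^ (2 - ε / 2) :=
              Real.rpow_le_rpow_of_exponent_le hD1 (by linarith)
          _ = S.D ^ (2 : ℝ) * η' := by rw [hη', ← Real.rpow_add hDpos]; congr 1
          _ ≤ S.P i * η' := mul_le_mul_of_nonneg_right (hP i) hη'0.le
      have hpos : 0 < S.D ^ (ε / 4) := Real.rpow_pos_of_pos hDpos _
      calc |((S.a c i (k + q * j) - S.a c i k : ℤ) : ℝ)| * S.D ^ (ε / 4)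
          ≤ (S.P i * (Mc c * (((q * j : ℕ) : ℝ) / S.D)) + 1) * S.D ^ (ε / 4) := by gcongr
        _ ≤ (S.P i * (Mc c * S.D ^ (-(3 * ε / 4))) + 1) * S.D ^ (ε / 4) := by
            have := (hP0 i).le
            gcongr
        _ = S.P i * Mc c * (S.D ^ (-(3 * ε / 4)) * S.D ^ (ε / 4)) + S.D ^ (ε / 4) := by ring
        _ ≤ S.P i * Mc c * η' + S.P i * η' := by rw [h4]; linarith
        _ ≤ 4 * (Mc c + 1) * η' * S.P i := by
            have : 0 ≤ S.P i * (Mc c + 1) * η' := by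
              have := (hP0 i).le
              positivity
            nlinarith
    have hdiff : V (k + q * j) - V k = 𝔼 x : ZMod N, g0 x *
        (∏ i, cc i (x + (S.a c i (k + q * j) : ZMod N)) - ∏ i, cc i (x + (S.a c i k : ZMod N))) := by
      rw [hV]
      change 𝔼 x : ZMod N, g0 x * ∏ i, cc i (x + (S.a c i (k + q * j) : ZMod N)) -
        𝔼 x : ZMod N, g0 x * ∏ i, cc i (x + (S.a c i k : ZMod N)) = _
      rw [← Finset.expect_sub_distrib]
      exact Finset.expect_congr rfl fun x _ => by ring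
    rw [hdiff]
    refine (norm_expect_le' _ _).trans ?_
    calc 𝔼 x : ZMod N, ‖g0 x * (∏ i, cc i (x + (S.a c i (k + q * j) : ZMod N)) -
          ∏ i, cc i (x + (S.a c i k : ZMod N)))‖
        ≤ 𝔼 _x : ZMod N, ((m + 1) * (4 * (Mc c + 1)) * η' : ℝ) := by
          refine Finset.expect_le_expect fun x _ => ?_
          rw [norm_mul]
          refine (mul_le_of_le_one_left (norm_nonneg _) (hg0b x)).trans ?_
          refine (prod_sub_prod univ (fun i _ => hccb i _) (fun i _ => hccb i _)).trans ?_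
          calc ∑ i, ‖cc i (x + (S.a c i (k + q * j) : ZMod N)) - cc i (x + (S.a c i k : ZMod N))‖
              ≤ ∑ _i : Fin (m + 1), 4 * (Mc c + 1) * η' := by
                refine Finset.sum_le_sum fun i _ => ?_
                obtain ⟨t, ht⟩ := stp_dvd45 hG hDpos q j k i
                have h7 := (hbc i).2.2.2 (x + (S.a c i k : ZMod N)) t
                rw [← ht] at h7
                have h8 : x + (S.a c i k : ZMod N) +
                    ((S.a c i (k + q * j) - S.a c i k : ℤ) : ZMod N) =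
                    x + (S.a c i (k + q * j) : ZMod N) := by
                  push_cast
                  ring
                rw [h8] at h7
                refine h7.trans (le_trans (le_of_eq ?_) (hterm i))
                have h9 : ((S.a c i (k + q * j) - S.a c i k : ℤ) : ℝ) =
                    (stp S.Q q (c i) : ℝ) * t := by
                  rw [ht]; push_cast; ring
                rw [h9, abs_mul, abs_of_nonneg (Nat.cast_nonneg (stp S.Q q (c i)) :
                  (0 : ℝ) ≤ (stp S.Q q (c i) : ℝ))]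
                ring
            _ = (m + 1) * (4 * (Mc c + 1)) * η' := by
                rw [Finset.sum_const, Finset.card_univ, Fintype.card_fin, nsmul_eq_mul]
                push_cast
                ring
      _ = _ := Finset.expect_const Finset.univ_nonempty _
  -- third error: integer parts
  have hEd : ∀ k, ‖E k - hw k * e (∑ i, (b i : ℝ) / N * S.P i * (S.t k) ^ (c i))‖ ≤
      8 * (m + 1) * η' := by
    intro k
    have h1 : E k = hw k * e (∑ i, (b i : ℝ) / N * (S.a c i k : ℝ)) := by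
      change hw k * ∏ i, ch (b i : ZMod N) (S.a c i k : ZMod N) = _
      rw [e_sum]
      congr 1
      exact Finset.prod_congr rfl fun i _ => ch_int45 _ _
    rw [h1, ← mul_sub, norm_mul]
    refine (mul_le_of_le_one_left (norm_nonneg _) (hh k)).trans ?_
    refine (norm_e_sub_e_le _ _).trans ?_
    rw [← Finset.sum_sub_distrib]
    have h2 : |∑ i, ((b i : ℝ) / N * (S.a c i k : ℝ) - (b i : ℝ) / N * S.P i * (S.t k) ^ (c i))| ≤
        (m + 1) * η' := by
      refine (Finset.abs_sum_le_sum_abs _ _).trans ?_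
      calc ∑ i, |(b i : ℝ) / N * (S.a c i k : ℝ) - (b i : ℝ) / N * S.P i * (S.t k) ^ (c i)|
          ≤ ∑ _i : Fin (m + 1), η' := by
            refine Finset.sum_le_sum fun i _ => ?_
            rw [mul_assoc, ← mul_sub, abs_mul]
            have h3 : |(S.a c i k : ℝ) - S.P i * (S.t k) ^ (c i)| ≤ 1 := by
              have h4 := Int.floor_le (S.P i * (S.t k) ^ (c i))
              have h5 := Int.lt_floor_add_one (S.P i * (S.t k) ^ (c i))
              unfold Sys.a
              rw [abs_le]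
              constructor <;> linarith
            refine (mul_le_of_le_one_right (abs_nonneg _) h3).trans ((hbc i).1.trans ?_)
            rw [div_le_iff₀ hQ0]
            calc δ⁻¹ ^ C0 ≤ S.D ^ (ε / 4) := hCC.trans hDinv
              _ ≤ η' * S.D ^ (2 : ℝ) := by
                rw [hη', ← Real.rpow_add hDpos]
                exact Real.rpow_le_rpow_of_exponent_le hD1 (by linarith)
              _ ≤ η' * S.Q := mul_le_mul_of_nonneg_left hQD hη'0.le
        _ = (m + 1) * η' := by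
            rw [Finset.sum_const, Finset.card_univ, Fintype.card_fin, nsmul_eq_mul]
            push_cast
            ring
    have h6 : 2 * Real.pi ≤ 8 := by linarith [Real.pi_le_four]
    calc 2 * Real.pi * |∑ i, ((b i : ℝ) / N * (S.a c i k : ℝ) -
          (b i : ℝ) / N * S.P i * (S.t k) ^ (c i))|
        ≤ 8 * ((m + 1) * η') := mul_le_mul h6 h2 (abs_nonneg _) (by norm_num)
      _ = _ := by ring
  -- conclusion
  have hI : S.I.Nonempty := by
    rw [Sys.I, Finset.nonempty_Ico]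
    omega
  have hKne : (range K).Nonempty := Finset.nonempty_range_iff.mpr (by omega)
  have hGb : ∀ k, ‖E k * V k‖ ≤ 1 := fun k => by
    rw [norm_mul]
    exact mul_le_one₀ (hEb k) (norm_nonneg _) (hVb k)
  have e1 : ‖𝔼 k ∈ S.I, E k * V k -
      𝔼 j ∈ range K, 𝔼 k ∈ S.I, E (k + q * j) * V (k + q * j)‖ ≤ 2 * η' := by
    have h1 : 𝔼 k ∈ S.I, E k * V k - 𝔼 j ∈ range K, 𝔼 k ∈ S.I, E (k + q * j) * V (k + q * j) =
        𝔼 j ∈ range K, (𝔼 k ∈ S.I, E k * V k - 𝔼 k ∈ S.I, E (k + q * j) * V (k + q * j)) := by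
      rw [Finset.expect_sub_distrib, Finset.expect_const hKne]
    rw [h1]
    refine (norm_expect_le' _ _).trans ?_
    calc 𝔼 j ∈ range K, ‖𝔼 k ∈ S.I, E k * V k - 𝔼 k ∈ S.I, E (k + q * j) * V (k + q * j)‖
        ≤ 𝔼 _j ∈ range K, 2 * η' := by
          refine Finset.expect_le_expect fun j hj => ?_
          have h2 := shift_expect hGb S.u S.T (q * j) hT1
          refine h2.trans (le_trans ?_ hKT)
          have h3 : (j : ℝ) ≤ K := by exact_mod_cast (Finset.mem_range.mp hj).le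
          push_cast
          gcongr
      _ = 2 * η' := Finset.expect_const hKne _
  have e2 : ‖𝔼 j ∈ range K, 𝔼 k ∈ S.I, E (k + q * j) * V (k + q * j) -
      𝔼 j ∈ range K, 𝔼 k ∈ S.I, E (k + q * j) * V k‖ ≤ (m + 1) * (4 * (Mc c + 1)) * η' := by
    rw [← Finset.expect_sub_distrib]
    refine (norm_expect_le' _ _).trans ?_
    calc 𝔼 j ∈ range K, ‖𝔼 k ∈ S.I, E (k + q * j) * V (k + q * j) -
          𝔼 k ∈ S.I, E (k + q * j) * V k‖
        ≤ 𝔼 _j ∈ range K, ((m + 1) * (4 * (Mc c + 1)) * η' : ℝ) := by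
          refine Finset.expect_le_expect fun j hj => ?_
          rw [← Finset.expect_sub_distrib]
          refine (norm_expect_le' _ _).trans ?_
          calc 𝔼 k ∈ S.I, ‖E (k + q * j) * V (k + q * j) - E (k + q * j) * V k‖
              ≤ 𝔼 _k ∈ S.I, ((m + 1) * (4 * (Mc c + 1)) * η' : ℝ) := by
                refine Finset.expect_le_expect fun k hk => ?_
                rw [← mul_sub, norm_mul]
                exact (mul_le_of_le_one_left (norm_nonneg _) (hEb _)).trans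
                  (hVd k hk j (Finset.mem_range.mp hj))
            _ = _ := Finset.expect_const hI _
      _ = _ := Finset.expect_const hKne _
  have e3 : ‖𝔼 j ∈ range K, 𝔼 k ∈ S.I, E (k + q * j) * V k‖ ≤
      𝔼 k ∈ S.I, ‖𝔼 j ∈ range K, E (k + q * j)‖ := by
    rw [Finset.expect_comm]
    refine (norm_expect_le' _ _).trans (Finset.expect_le_expect fun k _ => ?_)
    rw [← Finset.expect_mul, norm_mul]
    exact mul_le_of_le_one_right (norm_nonneg _) (hVb k)
  have e4 : 𝔼 k ∈ S.I, ‖𝔼 j ∈ range K, E (k + q * j)‖ ≤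
      𝔼 k ∈ S.I, ‖𝔼 j ∈ range K, hw (k + q * j) *
        e (∑ i, (b i : ℝ) / N * S.P i * (S.t (k + q * j)) ^ (c i))‖ + 8 * (m + 1) * η' := by
    rw [← Finset.expect_const hI (8 * (m + 1) * η' : ℝ), ← Finset.expect_add_distrib]
    refine Finset.expect_le_expect fun k _ => ?_
    have h1 : 𝔼 j ∈ range K, E (k + q * j) = 𝔼 j ∈ range K, hw (k + q * j) *
        e (∑ i, (b i : ℝ) / N * S.P i * (S.t (k + q * j)) ^ (c i)) +
        𝔼 j ∈ range K, (E (k + q * j) - hw (k + q * j) *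
          e (∑ i, (b i : ℝ) / N * S.P i * (S.t (k + q * j)) ^ (c i))) := by
      rw [← Finset.expect_add_distrib]
      exact Finset.expect_congr rfl fun j _ => by ring
    rw [h1]
    refine (norm_add_le _ _).trans (add_le_add le_rfl ?_)
    refine (norm_expect_le' _ _).trans ?_
    calc 𝔼 j ∈ range K, ‖E (k + q * j) - hw (k + q * j) *
          e (∑ i, (b i : ℝ) / N * S.P i * (S.t (k + q * j)) ^ (c i))‖
        ≤ 𝔼 _j ∈ range K, (8 * (m + 1) * η' : ℝ) := Finset.expect_le_expect fun j _ => hEd _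
      _ = _ := Finset.expect_const hKne _
  have hfin : δ ^ C / 2 ≤ 𝔼 k ∈ S.I, ‖𝔼 j ∈ range K, hw (k + q * j) *
        e (∑ i, (b i : ℝ) / N * S.P i * (S.t (k + q * j)) ^ (c i))‖ := by
    have h1 : ‖𝔼 k ∈ S.I, E k * V k‖ ≤ 2 * η' + (m + 1) * (4 * (Mc c + 1)) * η' +
        ‖𝔼 j ∈ range K, 𝔼 k ∈ S.I, E (k + q * j) * V k‖ := by
      have h2 : 𝔼 k ∈ S.I, E k * V k =
          (𝔼 k ∈ S.I, E k * V k - 𝔼 j ∈ range K, 𝔼 k ∈ S.I, E (k + q * j) * V (k + q * j)) +
          (𝔼 j ∈ range K, 𝔼 k ∈ S.I, E (k + q * j) * V (k + q * j) -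
            𝔼 j ∈ range K, 𝔼 k ∈ S.I, E (k + q * j) * V k) +
          𝔼 j ∈ range K, 𝔼 k ∈ S.I, E (k + q * j) * V k := by ring
      calc ‖𝔼 k ∈ S.I, E k * V k‖ = _ := congrArg norm h2
        _ ≤ _ := (norm_add₃_le).trans (by linarith)
    rw [← hdec] at h1
    have h3 : 2 * η' + (m + 1) * (4 * (Mc c + 1)) * η' + 8 * (m + 1) * η' ≤ 2 * A0 * η' := by
      have h4 : (0 : ℝ) ≤ m := Nat.cast_nonneg _
      have h5 : 2 + (m + 1) * (4 * (Mc c + 1)) + 8 * (m + 1) ≤ 2 * A0 := by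
        rw [hA0]
        nlinarith [mul_nonneg h4 hMc0]
      calc 2 * η' + (m + 1) * (4 * (Mc c + 1)) * η' + 8 * (m + 1) * η'
          = (2 + (m + 1) * (4 * (Mc c + 1)) + 8 * (m + 1)) * η' := by ring
        _ ≤ _ := mul_le_mul_of_nonneg_right h5 hη'0.le
    linarith
  refine le_trans ?_ hfin
  calc δ ^ (C + 1) = δ ^ C * δ := pow_succ _ _
    _ ≤ δ ^ C * (1 / 2) := mul_le_mul_of_nonneg_left hδ (by positivity)
    _ = δ ^ C / 2 := by ring

end

end Pool.Agent.Helper67.NX2
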