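import Pool.Agent.Helper45.NX2.DsCore
import Pool.Agent.Helper81.NX2.CharRep

/-!
# Project NX2, module A7: `D` from `U`
-/

set_option autoImplicit false

open Finset
open scoped BigOperators ComplexConjugate

namespace Pool.Agent.Helper67.NX2

open Pool.Agent.Helper57.NX

noncomputable section

theorem ds_of_us' (m : ℕ) (c : Fin (m + 1) → ℝ) (hc : Ex c) (s : ℝ) (hs0 : 0 ≤ s)
    (hs : s < c (Fin.last m)) (hU : ∀ ε : ℝ, 0 < ε → UsJ m c s ε univ) :
    ∀ ε : ℝ, 0 < ε → DsPm m c s ε := by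
  refine ds_core45 m c hc s fun ε hε => ?_
  obtain ⟨x0, hx0, C, σ, hσ, D0, H⟩ := char_rep m c hc s hs0 hs univ hU ε hε
  refine ⟨x0, hx0, C, σ, hσ, D0, ?_⟩
  intro S N _ lam hD hG δ hδσ hδ hlam X hQX hX hX' h f0 f hh hf0 hf hfl hform
  obtain ⟨q, hq1, hq, b, cc, hbc, hF⟩ := H S N lam hD hG δ hδσ hδ hlam X hQX hX hX' h f0 f hh hf0
    hf hfl hform
  refine ⟨q, hq1, hq, b, cc, fun i => hbc i (mem_univ i), ?_⟩
  simpa only [mem_univ, if_true] using hF

end

end Pool.Agent.Helper67.NX2
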